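import Mathlib

namespace Pool.Agent.Results.MP_902647_gt.Refine

open Set Finset

/-- the convex-form space: affine maps `C → [0,1]` -/
def Omega {E : Type} [AddCommGroup E] [Module ℝ E] (C : Set E) : Set (C → ℝ) :=
  {w | (∀ a, w a ∈ Icc (0 : ℝ) 1) ∧ ∀ (a b c : C), ∀ t ∈ Icc (0 : ℝ) 1,
    (c : E) = t • (a : E) + (1 - t) • (b : E) → w c = t * w a + (1 - t) * w b}

/-- `h`, with domain `D`, is a partially defined, onto, affine map from `X` to `Y` -/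
def POA {E F : Type} [AddCommGroup E] [Module ℝ E] [AddCommGroup F] [Module ℝ F]
    (X : Set E) (Y : Set F) (D : Set E) (h : E → F) : Prop :=
  D ⊆ X ∧ (∀ a ∈ D, ∀ b ∈ D, ∀ t ∈ Icc (0 : ℝ) 1, t • a + (1 - t) • b ∈ D ∧
    h (t • a + (1 - t) • b) = t • h a + (1 - t) • h b) ∧ h '' D = Y

theorem jensen {E ι : Type} [AddCommGroup E] [Module ℝ E] [Fintype ι] {C : Set E}
    (hC : Convex ℝ C) {w : C → ℝ} (hw : w ∈ Omega C) (p : ι → ℝ) (x : ι → C) (c : C)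
    (p0 : ∀ i, 0 ≤ p i) (p1 : ∑ i, p i = 1) (hc : (c : E) = ∑ i, p i • (x i : E)) :
    w c = ∑ i, p i * w (x i) := by
  classical
  let W : E → ℝ := fun y => if h : y ∈ C then w ⟨y, h⟩ else 0
  have e : ∀ y : C, W y = w y := fun y => dif_pos y.2
  have k : ∀ ⦃y⦄, y ∈ C → ∀ ⦃z⦄, z ∈ C → ∀ ⦃a b : ℝ⦄, 0 ≤ a → 0 ≤ b → a + b = 1 →
      W (a • y + b • z) = a • W y + b • W z := fun y hy z hz a b ha hb hab => by
    obtain rfl : b = 1 - a := by linarith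
    exact (e ⟨_, hC hy hz ha hb hab⟩).trans ((hw.2 ⟨y, hy⟩ ⟨z, hz⟩ _ a ⟨ha, by linarith⟩ rfl).trans
      (by rw [← e, ← e]; rfl))
  have c1 : ConvexOn ℝ C W := ⟨hC, fun _ hy _ hz _ _ ha hb hab => (k hy hz ha hb hab).le⟩
  have c2 : ConcaveOn ℝ C W := ⟨hC, fun _ hy _ hz _ _ ha hb hab => (k hy hz ha hb hab).ge⟩
  rw [← e, hc]
  simp only [← e]
  exact (c1.map_sum_le (fun i _ => p0 i) p1 fun i _ => (x i).2).antisymm
    (c2.le_map_sum (fun i _ => p0 i) p1 fun i _ => (x i).2)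

variable {n : ℕ}

def e (p : Fin n × Fin n) : Fin n → ℝ := Pi.single p.1 1 - Pi.single p.2 1

def f (a : Fin n ⊕ Fin n → ℝ) (i : Fin n) : ℝ := 2 * (a (.inl i) - a (.inr i))

def D (n : ℕ) : Set (Fin n ⊕ Fin n → ℝ) :=
  {a | (∀ x, 0 ≤ a x) ∧ ∑ i, a (.inl i) = 1 / 2 ∧ ∑ i, a (.inr i) = 1 / 2}

theorem DT : D n ⊆ stdSimplex ℝ (Fin n ⊕ Fin n) := fun _ h =>
  ⟨h.1, by rw [Fintype.sum_sum_type, h.2.1, h.2.2]; norm_num⟩

theorem f_eq {a} (ha : a ∈ D n) :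
    f a = ∑ p : Fin n × Fin n, (4 * a (.inl p.1) * a (.inr p.2)) • e p := by
  funext i
  simp only [f, e, Finset.sum_apply, Pi.smul_apply, Pi.sub_apply, smul_eq_mul, mul_sub,
    sum_sub_distrib, Fintype.sum_prod_type, Pi.single_apply]
  rw [sum_comm]
  simp only [mul_ite, mul_one, mul_zero, sum_ite_eq, Finset.mem_univ, if_true, ← mul_sum, ← sum_mul,
    ha.2.1, ha.2.2]
  ring

theorem w1 {a} (ha : a ∈ D n) : ∑ p : Fin n × Fin n, 4 * a (.inl p.1) * a (.inr p.2) = 1 := by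
  simp only [Fintype.sum_prod_type, ← mul_sum, ← sum_mul, ha.2.1, ha.2.2]
  norm_num

theorem poa : POA (stdSimplex ℝ (Fin n ⊕ Fin n)) (convexHull ℝ (range e)) (D n) f := by
  have k : ∀ a ∈ D n, ∀ b ∈ D n, ∀ t ∈ Icc (0 : ℝ) 1, t • a + (1 - t) • b ∈ D n ∧
      f (t • a + (1 - t) • b) = t • f a + (1 - t) • f b := fun a ha b hb t ht => by
    refine ⟨⟨fun x => add_nonneg (mul_nonneg ht.1 (ha.1 x)) (mul_nonneg (sub_nonneg.2 ht.2) (hb.1 x)),
      ?_, ?_⟩, ?_⟩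
    · simp only [Pi.add_apply, Pi.smul_apply, smul_eq_mul, sum_add_distrib, ← mul_sum, ha.2.1, hb.2.1]
      ring
    · simp only [Pi.add_apply, Pi.smul_apply, smul_eq_mul, sum_add_distrib, ← mul_sum, ha.2.2, hb.2.2]
      ring
    · funext i
      simp only [f, Pi.add_apply, Pi.smul_apply, smul_eq_mul]
      ring
  refine ⟨DT, k, Subset.antisymm ?_ (convexHull_min ?_ ?_)⟩
  · rintro _ ⟨a, ha, rfl⟩
    rw [f_eq ha]
    exact (convex_convexHull ℝ _).sum_mem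
      (fun p _ => mul_nonneg (mul_nonneg zero_le_four (ha.1 _)) (ha.1 _)) (w1 ha)
      fun p _ => subset_convexHull ℝ _ ⟨p, rfl⟩
  · rintro _ ⟨p, rfl⟩
    refine ⟨Sum.elim (Pi.single p.1 (1 / 2)) (Pi.single p.2 (1 / 2)), ⟨?_, by simp, by simp⟩, ?_⟩
    · rintro (x | x) <;> simp only [Sum.elim_inl, Sum.elim_inr, Pi.single_apply] <;> positivity
    · funext i
      simp only [f, e, Sum.elim_inl, Sum.elim_inr, Pi.sub_apply, Pi.single_apply]
      split_ifs <;> norm_num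
  · rintro _ ⟨a, ha, rfl⟩ _ ⟨b, hb, rfl⟩ s t h1 h2 h3
    obtain rfl : t = 1 - s := by linarith
    exact ⟨_, (k a ha b hb s ⟨h1, by linarith⟩).1, (k a ha b hb s ⟨h1, by linarith⟩).2⟩

theorem lift [NeZero n] (φ : convexHull ℝ (range (e (n := n))) → ℝ) (hφ : φ ∈ Omega _) :
    ∃ w ∈ Omega (stdSimplex ℝ (Fin n ⊕ Fin n)), ∀ a (ha : a ∈ D n) h, w ⟨a, DT ha⟩ = φ ⟨f a, h⟩ := by
  let c : Fin n × Fin n → convexHull ℝ (range (e (n := n))) := fun p =>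
    ⟨e p, subset_convexHull ℝ _ ⟨p, rfl⟩⟩
  have hh : (1 / 2 : ℝ) ∈ Icc (0 : ℝ) 1 := by constructor <;> norm_num
  have mid : ∀ p q r s, e p + e q = e r + e s → φ (c p) + φ (c q) = φ (c r) + φ (c s) := by
    intro p q r s h
    have m := (convex_convexHull ℝ _) (c p).2 (c q).2 hh.1 (sub_nonneg.2 hh.2) (add_sub_cancel _ _)
    have a := hφ.2 (c p) (c q) ⟨_, m⟩ _ hh rfl
    have b := hφ.2 (c r) (c s) ⟨_, m⟩ _ hh (by
      simp only [c, show (1 - 1 / 2 : ℝ) = 1 / 2 by norm_num, ← smul_add, h])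
    linarith
  obtain ⟨l, hl⟩ : ∃ l : Fin n → ℝ, ∀ i, l i = φ (c (i, 0)) := ⟨_, fun _ => rfl⟩
  have co : ∀ p, φ (c p) = l 0 + l p.1 - l p.2 := fun p => by
    have := mid p (p.2, 0) (p.1, 0) (0, 0) (by simp [e])
    simp only [hl]
    linarith
  obtain ⟨u, hu⟩ := Finite.exists_max l
  obtain ⟨d, hd⟩ := Finite.exists_min l
  have b1 := (hφ.1 (c (u, d))).2
  have b2 := (hφ.1 (c (d, u))).1
  rw [co] at b1 b2
  let z : Fin n ⊕ Fin n → ℝ := Sum.elim (fun i => 2 * l i + (l 0 - l u - l d))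
    fun i => -2 * l i + (l 0 + l u + l d)
  have z0 : ∀ x, 0 ≤ z x ∧ z x ≤ 1 := by
    rintro (x | x) <;> simp only [z, Sum.elim_inl, Sum.elim_inr] <;> constructor <;>
      linarith [hu x, hd x]
  refine ⟨fun a => ∑ x, a.1 x * z x, ⟨fun a => ⟨sum_nonneg fun x _ => mul_nonneg (a.2.1 x) (z0 x).1,
    (sum_le_sum fun x _ => mul_le_of_le_one_right (a.2.1 x) (z0 x).2).trans_eq a.2.2⟩,
    fun a b x t _ h => ?_⟩, fun a ha h => ?_⟩
  · simp only [h, Pi.add_apply, Pi.smul_apply, smul_eq_mul, add_mul, sum_add_distrib, mul_assoc,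
      ← mul_sum]
  rw [jensen (convex_convexHull ℝ _) hφ _ c _
    (fun p => mul_nonneg (mul_nonneg zero_le_four (ha.1 _)) (ha.1 _)) (w1 ha)
    (f_eq ha)]
  have s1 : ∑ p : Fin n × Fin n, 4 * a (.inl p.1) * a (.inr p.2) * l p.1 =
      2 * ∑ i, a (.inl i) * l i := by
    simp only [Fintype.sum_prod_type, ← mul_sum, ← sum_mul, ha.2.2]
    rw [mul_sum]
    exact sum_congr rfl fun _ _ => by ring
  have s2 : ∑ p : Fin n × Fin n, 4 * a (.inl p.1) * a (.inr p.2) * l p.2 =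
      2 * ∑ i, a (.inr i) * l i := by
    simp only [Fintype.sum_prod_type, mul_assoc, ← mul_sum, ← sum_mul, ha.2.1]
    ring
  simp only [co, mul_sub, mul_add, sum_add_distrib, sum_sub_distrib, s1, s2, ← sum_mul, w1 ha,
    Fintype.sum_sum_type, z, Sum.elim_inl, Sum.elim_inr, ha.2.1, ha.2.2, mul_left_comm _ (2 : ℝ),
    mul_left_comm _ (-2 : ℝ), ← mul_sum]
  ring

theorem ext (hn : 4 ≤ n) : (convexHull ℝ (range (e (n := n)))).extremePoints ℝ =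
    e '' (univ : Finset (Fin n)).offDiag := by
  have h1 : ∀ x ∈ convexHull ℝ (range (e (n := n))), (∀ i, -1 ≤ x i ∧ x i ≤ 1) ∧
      ∀ p : Fin n × Fin n, x p.1 = 1 → x p.2 = -1 → x = e p := by
    rw [← poa.2.2]
    rintro _ ⟨a, ⟨a0, a1, a2⟩, rfl⟩
    have b1 := fun i => (single_le_sum (fun i _ => a0 (.inl i)) (mem_univ i)).trans_eq a1
    have b2 := fun i => (single_le_sum (fun i _ => a0 (.inr i)) (mem_univ i)).trans_eq a2
    refine ⟨fun i => ?_, fun p h1 h2 => funext fun i => ?_⟩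
    · unfold f
      constructor <;> linarith [b1 i, b2 i, a0 (.inl i), a0 (.inr i)]
    unfold f at h1 h2
    have c1 : a (.inl i) = if i = p.1 then 1 / 2 else 0 := by
      split_ifs with h
      · rw [h]; linarith [b1 p.1, a0 (.inr p.1)]
      · linarith [(add_le_sum (fun i _ => a0 (.inl i)) (mem_univ i) (mem_univ p.1) h).trans_eq a1,
          a0 (.inr p.1), a0 (.inl i)]
    have c2 : a (.inr i) = if i = p.2 then 1 / 2 else 0 := by
      split_ifs with h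
      · rw [h]; linarith [b2 p.2, a0 (.inl p.2)]
      · linarith [(add_le_sum (fun i _ => a0 (.inr i)) (mem_univ i) (mem_univ p.2) h).trans_eq a2,
          a0 (.inl p.2), a0 (.inr i)]
    simp only [f, e, c1, c2, Pi.sub_apply, Pi.single_apply]
    split_ifs <;> norm_num
  refine Subset.antisymm (fun x hx => ?_) ?_
  · obtain ⟨⟨i, j⟩, rfl⟩ := extremePoints_convexHull_subset hx
    refine ⟨_, by_contra fun h => ?_, rfl⟩
    obtain rfl : i = j := by simpa using h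
    have := hx.2 (subset_convexHull ℝ _ ⟨(⟨0, by omega⟩, ⟨1, by omega⟩), rfl⟩)
      (subset_convexHull ℝ _ ⟨(⟨1, by omega⟩, ⟨0, by omega⟩), rfl⟩)
      ⟨1 / 2, 1 / 2, by norm_num, by norm_num, by norm_num, by simp [e, ← smul_add]⟩
    simpa [e, Pi.single_apply, Fin.ext_iff] using congrFun this ⟨0, by omega⟩
  · rintro _ ⟨⟨i, j⟩, h, rfl⟩
    have h : i ≠ j := by simpa using h
    refine ⟨subset_convexHull ℝ _ ⟨_, rfl⟩, ?_⟩
    rintro x hx y hy ⟨s, t, s0, t0, st, hs⟩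
    have a := congrFun hs i
    have b := congrFun hs j
    simp [e, h, h.symm] at a b
    refine (h1 x hx).2 _ ?_ ?_
    · nlinarith [((h1 x hx).1 i).2, ((h1 y hy).1 i).2]
    · nlinarith [((h1 x hx).1 j).1, ((h1 y hy).1 j).1]

theorem result (n : ℕ) (hn : 4 ≤ n) : ∃ C : Set (Fin n → ℝ),
    (∃ S : Set (Fin n → ℝ), S.Finite ∧ C = convexHull ℝ S) ∧
    (¬∃ S : Set (Fin n → ℝ), S.Finite ∧ AffineIndependent ℝ ((↑) : S → Fin n → ℝ) ∧
      C = convexHull ℝ S) ∧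
    (C.extremePoints ℝ).ncard = n * (n - 1) ∧ 2 * n < n * (n - 1) ∧
    ∃ (A : Set (Fin n ⊕ Fin n → ℝ)) (f : (Fin n ⊕ Fin n → ℝ) → Fin n → ℝ)
      (B : Set (stdSimplex ℝ (Fin n ⊕ Fin n) → ℝ))
      (g : (stdSimplex ℝ (Fin n ⊕ Fin n) → ℝ) → C → ℝ),
      POA (stdSimplex ℝ (Fin n ⊕ Fin n)) C A f ∧
      POA (Omega (stdSimplex ℝ (Fin n ⊕ Fin n))) (Omega C) B g ∧
      ∀ a ∈ A, ∀ w ∈ B, ∀ h₁ h₂, g w ⟨f a, h₁⟩ = w ⟨a, h₂⟩ := by
  have : NeZero n := ⟨by omega⟩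
  have lt : 2 * n < n * (n - 1) := by
    obtain ⟨m, rfl⟩ := Nat.exists_eq_add_of_le' hn
    rw [show m + 4 - 1 = m + 3 from rfl]
    nlinarith
  have card : ((convexHull ℝ (range (e (n := n)))).extremePoints ℝ).ncard = n * (n - 1) := by
    rw [ext hn, InjOn.ncard_image, ncard_coe_finset, offDiag_card, card_univ, Fintype.card_fin,
      Nat.mul_sub_one]
    rintro ⟨i, j⟩ h ⟨k, l⟩ h' hh
    have h : i ≠ j := by simpa using h
    have a := congrFun hh i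
    have b := congrFun hh j
    simp only [e, Pi.sub_apply, Pi.single_apply, if_neg h, if_neg h.symm, if_true] at a b
    ext <;> by_contra c <;> split_ifs at a b <;> simp_all <;> norm_num at *
  have sec : ∀ c : convexHull ℝ (range (e (n := n))), ∃ a ∈ D n, f a = c := fun c =>
    poa.2.2.ge c.2
  choose σ σ1 σ2 using sec
  refine ⟨_, ⟨_, finite_range e, rfl⟩, ?_, card, lt, D n, f, {w | w ∈ Omega _ ∧ ∀ a (ha : a ∈ D n) b
    (hb : b ∈ D n), f a = f b → w ⟨a, DT ha⟩ = w ⟨b, DT hb⟩}, fun w c => w ⟨σ c, DT (σ1 c)⟩, poa,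
    ⟨fun _ h => h.1, fun v hv w hw t ht => ⟨⟨⟨fun a => ?_, fun a b c s hs h => ?_⟩,
      fun a ha b hb h => ?_⟩, rfl⟩, Subset.antisymm ?_ fun φ hφ => ?_⟩,
    fun a ha w hw h _ => hw.2 _ (σ1 _) a ha (σ2 _)⟩
  · rintro ⟨S, h1, h2, h3⟩
    have := h1.fintype
    have a := h2.card_le_finrank_succ
    have b := Submodule.finrank_le (vectorSpan ℝ (range ((↑) : S → Fin n → ℝ)))
    have c := ncard_le_ncard (h3 ▸ extremePoints_convexHull_subset (𝕜 := ℝ) (A := S)) h1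
    rw [← Nat.card_eq_fintype_card, Nat.card_coe_set_eq] at a
    rw [Module.finrank_fin_fun] at b
    have c : ((convexHull ℝ (range (e (n := n)))).extremePoints ℝ).ncard ≤ S.ncard := c
    omega
  · exact convex_Icc (0 : ℝ) 1 (hv.1.1 a) (hw.1.1 a) ht.1 (sub_nonneg.2 ht.2) (add_sub_cancel _ _)
  · simp only [Pi.add_apply, Pi.smul_apply, smul_eq_mul, hv.1.2 a b c s hs h, hw.1.2 a b c s hs h]
    ring
  · simp only [Pi.add_apply, Pi.smul_apply, hv.2 a ha b hb h, hw.2 a ha b hb h]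
  · rintro _ ⟨w, hw, rfl⟩
    refine ⟨fun c => hw.1.1 _, fun a b c t ht h => ?_⟩
    obtain ⟨k1, k2⟩ := poa.2.1 _ (σ1 a) _ (σ1 b) t ht
    exact (hw.2 _ (σ1 c) _ k1 (by rw [k2, σ2, σ2, σ2, h])).trans (hw.1.2 _ _ _ t ht rfl)
  · obtain ⟨w, hw, h⟩ := lift φ hφ
    refine ⟨w, ⟨hw, fun a ha b hb hab => ?_⟩, funext fun c => ?_⟩
    · rw [h a ha (poa.2.2.le ⟨a, ha, rfl⟩), h b hb (poa.2.2.le ⟨b, hb, rfl⟩)]
      simp only [hab]
    · exact (h _ (σ1 c) (σ2 c ▸ c.2)).trans (by simp only [σ2])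

end Pool.Agent.Results.MP_902647_gt.Refine
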